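import Pool.Agent.helper55.ZI.Spec2

/-!
# Row `FGI` (MP_337222_al): finitely generated left ideals are generated by an idempotent
-/

set_option autoImplicit false

namespace Pool.Agent.helper64.ZI

open Pool.Agent.ZI

universe u

/-- In a semisimple ring. -/
theorem FGI_ss {A : Type u} [Ring A] [IsSemisimpleRing A] (n : ℕ) (p : Fin n → A) :
    ∃ (ε : A) (q : Fin n → A), ε * ε = ε ∧ (∀ i, p i * ε = p i) ∧ ε = ∑ i, q i * p i := by
  obtain ⟨J, hJ⟩ := exists_isCompl (Submodule.span A (Set.range p))
  have h1 : (1 : A) ∈ Submodule.span A (Set.range p) ⊔ J := by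
    rw [hJ.sup_eq_top]
    trivial
  obtain ⟨a, ha, b, hb, hab⟩ := Submodule.mem_sup.1 h1
  obtain ⟨q, hq⟩ := (Submodule.mem_span_range_iff_exists_fun A).1 ha
  have hp : ∀ i, p i * a = p i := by
    intro i
    have e : p i * a + p i * b = p i := by rw [← mul_add, hab, mul_one]
    have e1 : p i * b ∈ J := J.smul_mem (p i) hb
    have e2 : p i * b ∈ Submodule.span A (Set.range p) := by
      have e3 : p i * b = p i - p i * a := by rw [eq_sub_iff_add_eq, add_comm]; exact e
      rw [e3]
      exact Submodule.sub_mem _ (Submodule.subset_span ⟨i, rfl⟩) (Submodule.smul_mem _ (p i) ha)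
    have e4 : p i * b = 0 := by
      have : p i * b ∈ Submodule.span A (Set.range p) ⊓ J := ⟨e2, e1⟩
      rwa [hJ.inf_eq_bot, Submodule.mem_bot] at this
    rw [e4, add_zero] at e
    exact e
  refine ⟨a, q, ?_, hp, ?_⟩
  · have hq' : a = ∑ i, q i * p i := hq.symm
    calc a * a = (∑ i, q i * p i) * a := by rw [← hq']
      _ = ∑ i, q i * (p i * a) := by
          rw [Finset.sum_mul]
          exact Finset.sum_congr rfl fun i _ => mul_assoc _ _ _
      _ = ∑ i, q i * p i := Finset.sum_congr rfl fun i _ => by rw [hp i]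
      _ = a := hq'.symm
  · exact hq.symm

/-- Finitely many elements lie in one ring of the chain. -/
theorem FGI_stage {R : Type u} [Ring R] {S : ℕ → Subring R} (h : SemisimpleChain R S) (n : ℕ)
    (p : Fin n → R) : ∃ N, ∀ i, p i ∈ S N := by
  choose f hf using fun i => h.cov (p i)
  exact ⟨Finset.univ.sup f, fun i => h.mono (Finset.le_sup (Finset.mem_univ i)) (hf i)⟩

theorem FGI : FGI_stmt.{u} := by
  intro R _ S h n p
  obtain ⟨N, hN⟩ := FGI_stage h n p
  haveI := h.ss N
  obtain ⟨ε, q, h1, h2, h3⟩ := FGI_ss (A := S N) n fun i => ⟨p i, hN i⟩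
  refine ⟨(ε : R), fun i => (q i : R), ?_, ?_, ?_⟩
  · exact congrArg Subtype.val h1
  · intro i
    exact congrArg Subtype.val (h2 i)
  · have := congrArg (S N).subtype h3
    rw [map_sum] at this
    exact this

end Pool.Agent.helper64.ZI
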